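import Mathlib
import Pool.Agent.TH881.RK.DefsX
import Pool.Agent.TH914.J5134

/-! Exact values of the extremal function: the exponents (assembly). -/

set_option autoImplicit false

namespace Pool.Agent.TH406.J5318

open Finset Filter Topology
open Pool.Agent.TH881
open Pool.Agent.TH881.RK
open Pool.Agent.TH914.J5134

theorem dd_zero' (m N : ℕ) : dd m N 0 = N ^ m := by
  induction m with
  | zero => simp [dd]
  | succ m ih => simp only [dd]; rw [ih]; ring

theorem dd_anti (m N k : ℕ) (h : k < N) : dd m N (k + 1) ≤ dd m N k := by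
  obtain ⟨n, rfl⟩ : ∃ n, N = n + 1 := ⟨N - 1, by omega⟩
  have := dd_add m n k (by omega)
  omega

theorem dd_one_pos (m N : ℕ) (hm : 1 ≤ m) (hN : 1 ≤ N) : 0 < dd m N 1 := by
  obtain ⟨m, rfl⟩ : ∃ k, m = k + 1 := ⟨m - 1, by omega⟩
  have h1 : 0 < dd m N 0 := by
    rw [dd_zero']
    exact Nat.pow_pos (by omega)
  have h2 : dd (m + 1) N 1 = (N - (0 + 1)) * dd m N (0 + 1) + (0 + 1) * dd m N 0 := rfl
  rw [h2]
  omega

theorem dd_le (m N j : ℕ) (h : j ≤ N) : dd m N j ≤ N ^ m := by
  induction j with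
  | zero => exact (dd_zero' m N).le
  | succ j ih => exact (dd_anti m N j (by omega)).trans (ih (by omega))

/-- the normalised sum -/
noncomputable def SS (m n : ℕ) : ℝ := (Qs m n : ℝ) / (n : ℝ) ^ m

theorem SS_gt (m n : ℕ) (hm : 1 ≤ m) (hn : 2 ≤ n) : 1 < SS m n := by
  have h1 : dd m n 0 + dd m n 1 ≤ Qs m n := by
    have h2 : ∑ j ∈ range 2, dd m n j ≤ ∑ j ∈ range n, dd m n j :=
      sum_le_sum_of_subset (range_subset_range.2 hn)
    rw [sum_range_succ, sum_range_one] at h2
    exact h2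
  have h3 := dd_one_pos m n hm (by omega)
  have h4 : n ^ m < Qs m n := by
    rw [dd_zero'] at h1
    omega
  have h5 : (0 : ℝ) < (n : ℝ) ^ m := by
    have : (0 : ℝ) < n := by exact_mod_cast (by omega : 0 < n)
    positivity
  unfold SS
  rw [one_lt_div h5]
  exact_mod_cast h4

theorem SS_le (m n : ℕ) (hn : 2 ≤ n) : SS m n ≤ n := by
  have h5 : (0 : ℝ) < (n : ℝ) ^ m := by
    have : (0 : ℝ) < n := by exact_mod_cast (by omega : 0 < n)
    positivity
  unfold SS
  rw [div_le_iff₀ h5]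
  have h1 : Qs m n ≤ n * n ^ m := by
    unfold Qs
    calc ∑ j ∈ range n, dd m n j ≤ ∑ _j ∈ range n, n ^ m :=
          sum_le_sum fun j hj => dd_le m n j (mem_range.1 hj).le
      _ = n * n ^ m := by simp
  exact_mod_cast h1

theorem aam_eq (m n : ℕ) (hn : 2 ≤ n) : aam m (n + 1) = Real.log (SS m n) / Real.log n := by
  unfold aam SS
  rw [if_neg (by omega)]
  have e1 : n + 1 - 1 = n := rfl
  have e2 : ((n + 1 : ℕ) : ℝ) - 1 = n := by push_cast; ring
  rw [e1, e2]

theorem log_pos' (n : ℕ) (hn : 2 ≤ n) : 0 < Real.log n :=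
  Real.log_pos (by exact_mod_cast (by omega : 1 < n))

theorem aam_bd (m n : ℕ) (hm : 1 ≤ m) (hn : 2 ≤ n) : 0 < aam m (n + 1) ∧ aam m (n + 1) ≤ 1 := by
  rw [aam_eq m n hn]
  have h1 := SS_gt m n hm hn
  have h2 := SS_le m n hn
  have h3 := log_pos' n hn
  refine ⟨div_pos (Real.log_pos h1) h3, ?_⟩
  rw [div_le_one h3]
  exact Real.log_le_log (by linarith) h2

/-- the chord inequality for the occupancy numbers -/
theorem chord (hLC : StLC) (hSl : StSl) (m n k : ℕ) (hn : 2 ≤ n) (hk : 1 ≤ k) (hkn : k ≤ n) :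
    (n : ℝ) ^ m * SS m n ^ (Real.log k / Real.log n) ≤ ∑ j ∈ range k, (dd m n j : ℝ) := by
  have h0 : ((dd m n 0 : ℕ) : ℝ) = (n : ℝ) ^ m := by rw [dd_zero']; push_cast; rfl
  have h5 : (0 : ℝ) < (n : ℝ) ^ m := by
    have : (0 : ℝ) < n := by exact_mod_cast (by omega : 0 < n)
    positivity
  have h1 := hSl n (fun j => (dd m n j : ℝ)) hn (by simp only [h0]; exact h5)
    (fun j => Nat.cast_nonneg _)
    (fun j hj => by exact_mod_cast dd_anti m n j (by omega))
    (fun j hj => by exact_mod_cast hLC m n j (by omega)) k hk hkn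
  simp only [h0] at h1
  have e : SS m n = (∑ j ∈ range n, (dd m n j : ℝ)) / (n : ℝ) ^ m := by
    unfold SS Qs
    push_cast
    rfl
  rw [e]
  exact h1

theorem dd_mono' (m n j : ℕ) (hn : 1 ≤ n) (hj : j ≤ n) : ∀ t : ℕ,
    (dd m (n + t) j : ℝ) / ((n + t : ℕ) : ℝ) ^ m ≤ (dd m n j : ℝ) / (n : ℝ) ^ m := by
  intro t
  induction t with
  | zero => simp
  | succ t ih =>
    refine le_trans ?_ ih
    have h1 := dd_mono m (n + t) j (by omega)
    have p1 : (0 : ℝ) < ((n + t : ℕ) : ℝ) ^ m := by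
      have : (0 : ℝ) < ((n + t : ℕ) : ℝ) := by exact_mod_cast (by omega : 0 < n + t)
      positivity
    have p2 : (0 : ℝ) < ((n + (t + 1) : ℕ) : ℝ) ^ m := by
      have : (0 : ℝ) < ((n + (t + 1) : ℕ) : ℝ) := by exact_mod_cast (by omega : 0 < n + (t + 1))
      positivity
    rw [div_le_div_iff₀ p2 p1]
    exact_mod_cast h1

theorem SS_chain (hLC : StLC) (hSl : StSl) (m n N : ℕ) (hn : 2 ≤ n) (hN : n ≤ N) :
    SS m N ^ (Real.log n / Real.log N) ≤ SS m n := by
  have h1 := chord hLC hSl m N n (by omega) (by omega) hN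
  have p2 : (0 : ℝ) < (N : ℝ) ^ m := by
    have : (0 : ℝ) < (N : ℝ) := by exact_mod_cast (by omega : 0 < N)
    positivity
  have h2 : SS m N ^ (Real.log n / Real.log N) ≤ (∑ j ∈ range n, (dd m N j : ℝ)) / (N : ℝ) ^ m := by
    rw [le_div_iff₀ p2, mul_comm]
    exact h1
  refine h2.trans ?_
  unfold SS Qs
  push_cast
  rw [sum_div, sum_div]
  refine sum_le_sum fun j hj => ?_
  have h3 := dd_mono' m n j (by omega) (mem_range.1 hj).le (N - n)
  have e : n + (N - n) = N := by omega
  rw [e] at h3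
  exact h3

theorem aam_anti (hLC : StLC) (hSl : StSl) (m n N : ℕ) (hm : 1 ≤ m) (hn : 2 ≤ n) (hN : n ≤ N) :
    aam m (N + 1) ≤ aam m (n + 1) := by
  rw [aam_eq m n hn, aam_eq m N (by omega)]
  have h1 := SS_chain hLC hSl m n N hn hN
  have h2 := SS_gt m N hm (by omega)
  have h3 := log_pos' n hn
  have h4 := log_pos' N (by omega)
  have h5 : Real.log (SS m N ^ (Real.log n / Real.log N)) ≤ Real.log (SS m n) :=
    Real.log_le_log (Real.rpow_pos_of_pos (by linarith) _) h1
  rw [Real.log_rpow (by linarith)] at h5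
  rw [div_le_div_iff₀ h4 h3]
  have h6 : Real.log n / Real.log N * Real.log (SS m N) * Real.log N =
      Real.log (SS m N) * Real.log n := by
    field_simp
  have h7 := mul_le_mul_of_nonneg_right h5 h4.le
  rw [h6] at h7
  exact h7

open Classical in
theorem Qn_insert (m p : ℕ) [NeZero p] (L : Finset (ZMod p)) (b : ZMod p) (hb : b ∉ L) :
    Qn m p (insert b L) = Qn m p L + Dn m p L b := by
  unfold Qn Dn
  rw [← card_union_of_disjoint]
  · congr 1
    ext x
    simp only [mem_filter, mem_univ, true_and, mem_union, mem_insert]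
    constructor
    · rintro ⟨c, hc | hc, h⟩
      · subst hc
        by_cases h2 : ∃ b ∈ L, ∀ j, x j + b ≠ 0
        · exact Or.inl h2
        · refine Or.inr ⟨h, fun c hc => ?_⟩
          by_contra h3
          push Not at h3
          exact h2 ⟨c, hc, h3⟩
      · exact Or.inl ⟨c, hc, h⟩
    · rintro (⟨c, hc, h⟩ | ⟨h, -⟩)
      · exact ⟨c, Or.inr hc, h⟩
      · exact ⟨b, Or.inl rfl, h⟩
  · rw [disjoint_left]
    intro x h1 h2
    simp only [mem_filter, mem_univ, true_and] at h1 h2
    obtain ⟨c, hc, h⟩ := h1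
    obtain ⟨j, hj⟩ := h2.2 c hc
    exact h j hj

open Classical in
theorem Qn_eq (hDC : StDC) (m p : ℕ) [NeZero p] (hp : p.Prime) (L : Finset (ZMod p)) :
    Qn m p L = ∑ j ∈ range L.card, dd m (p - 1) j := by
  induction L using Finset.induction_on with
  | empty => simp [Qn]
  | insert b L hb ih =>
    rw [Qn_insert m p L b hb, ih, hDC m p hp L b hb, card_insert_of_notMem hb, sum_range_succ]

open Classical in
theorem card_Un (p : ℕ) [NeZero p] : (Un p).card = p - 1 := by
  have h1 : Un p = univ.erase 0 := by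
    ext b
    simp [Un]
  rw [h1, card_erase_of_mem (mem_univ _), card_univ, ZMod.card]

theorem stEx_of (m : ℕ) (hm : 1 ≤ m) (hDC : StDC) (hLC : StLC) (hSl : StSl) : StEx m := by
  have a2 : aam m 2 = 1 := by
    unfold aam
    rw [if_pos le_rfl]
  have hbd : ∀ p : ℕ, 2 ≤ p → 0 < aam m p ∧ aam m p ≤ 1 := by
    intro p hp
    rcases eq_or_lt_of_le hp with h | h
    · rw [← h, a2]
      norm_num
    · obtain ⟨n, rfl⟩ : ∃ n, p = n + 1 := ⟨p - 1, by omega⟩
      exact aam_bd m n hm (by omega)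
  refine ⟨hbd, ?_, ?_⟩
  · intro p q hp hpq
    rcases eq_or_lt_of_le hp with h | h
    · rw [← h, a2]
      exact (hbd q (by omega)).2
    · obtain ⟨n, rfl⟩ : ∃ n, p = n + 1 := ⟨p - 1, by omega⟩
      obtain ⟨N, rfl⟩ : ∃ n, q = n + 1 := ⟨q - 1, by omega⟩
      exact aam_anti hLC hSl m n N hm (by omega) (by omega)
  · intro p _ hp
    have hp2 := hp.two_le
    have e0 : Qn m p (Un p) = Qs m (p - 1) := by
      rw [Qn_eq hDC m p hp, card_Un]
      rfl
    refine ⟨e0, ?_⟩
    intro L hL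
    have hcard : L.card ≤ p - 1 := by
      rw [← card_Un p]
      exact card_le_card hL
    rw [e0, Qn_eq hDC m p hp L, card_Un]
    have ha := (hbd p hp2).1
    rcases Nat.eq_zero_or_pos L.card with h0 | h0
    · rw [h0]
      simp [Real.zero_rpow ha.ne']
    rcases eq_or_lt_of_le hp2 with h | h
    · have h1 : L.card = 1 := by omega
      rw [h1, ← h]
      simp [Qs]
    · obtain ⟨n, rfl⟩ : ∃ n, p = n + 1 := ⟨p - 1, by omega⟩
      have e1 : n + 1 - 1 = n := rfl
      rw [e1] at hcard ⊢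
      have hn : 2 ≤ n := by omega
      rw [aam_eq m n hn]
      have h1 := chord hLC hSl m n L.card hn h0 hcard
      have hS := SS_gt m n hm hn
      have hS0 : 0 < SS m n := by linarith
      have hlog := log_pos' n hn
      have hn0 : (0 : ℝ) < n := by exact_mod_cast (by omega : 0 < n)
      have hk0 : (0 : ℝ) < L.card := by exact_mod_cast h0
      have p2 : (0 : ℝ) < (n : ℝ) ^ m := by positivity
      have e2 : (Qs m n : ℝ) = (n : ℝ) ^ m * SS m n := by
        unfold SS
        field_simp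
      have e3 : (n : ℝ) ^ (Real.log (SS m n) / Real.log n) = SS m n := by
        rw [Real.rpow_def_of_pos hn0, mul_div_cancel₀ _ hlog.ne', Real.exp_log hS0]
      have e4 : (L.card : ℝ) ^ (Real.log (SS m n) / Real.log n) =
          SS m n ^ (Real.log L.card / Real.log n) := by
        rw [Real.rpow_def_of_pos hk0, Real.rpow_def_of_pos hS0]
        congr 1
        ring
      rw [Real.div_rpow hk0.le hn0.le, e3, e4, e2]
      have e5 : (n : ℝ) ^ m * SS m n * (SS m n ^ (Real.log L.card / Real.log n) / SS m n) =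
          (n : ℝ) ^ m * SS m n ^ (Real.log L.card / Real.log n) := by
        field_simp
      rw [e5]
      push_cast
      exact h1

end Pool.Agent.TH406.J5318
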